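import Mathlib

set_option autoImplicit false

universe u

namespace Pool.Agent.Lib.MP_7b06ad_gt

/-- `(V, i)` is a free (Hausdorff, real) topological vector space over `X`: `i` is continuous and
every continuous map from `X` to a Hausdorff real topological vector space `E` is `g ∘ i` for a
unique continuous linear `g : V → E`. -/
def IsFreeTVS {X V : Type u} [TopologicalSpace X] [AddCommGroup V] [Module ℝ V]
    [TopologicalSpace V] (i : X → V) : Prop :=
  Continuous i ∧
    ∀ (E : Type u) [AddCommGroup E] [Module ℝ E] [TopologicalSpace E] [IsTopologicalAddGroup E]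
      [ContinuousSMul ℝ E] [T2Space E] (f : X → E), Continuous f →
      ∃! g : V →L[ℝ] E, ∀ x, g (i x) = f x

/-- `sp i n = {λ₁ x₁ + ⋯ + λₙ xₙ : λⱼ ∈ [-n, n], xⱼ ∈ X}`. -/
def sp {X V : Type u} [AddCommGroup V] [Module ℝ V] (i : X → V) (n : ℕ) : Set V :=
  {v | ∃ (l : Fin n → ℝ) (x : Fin n → X),
    (∀ j, l j ∈ Set.Icc (-(n : ℝ)) (n : ℝ)) ∧ v = ∑ j, l j • i (x j)}

end Pool.Agent.Lib.MP_7b06ad_gt
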