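import Pool.Agent.Lib.MP_7b06ad_gt.Defs
import Mathlib

-- part Pool.Agent.Lib.MP_7b06ad_gt.NotK
section

set_option autoImplicit false
open Set Filter Topology

universe u

namespace Pool.Agent.Lib.MP_7b06ad_gt

/-- closed and discrete -/
def CD {X : Type*} [TopologicalSpace X] (D : Set X) : Prop :=
  ∀ x, ∃ U ∈ 𝓝 x, U ∩ D ⊆ {x}

theorem CD.mono {X : Type*} [TopologicalSpace X] {D D' : Set X} (h : CD D) (h' : D' ⊆ D) :
    CD D' := fun x =>
  let ⟨U, hU, h1⟩ := h x
  ⟨U, hU, (inter_subset_inter_right U h').trans h1⟩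

theorem CD.isClosed {X : Type*} [TopologicalSpace X] {D : Set X} (h : CD D) : IsClosed D := by
  rw [← isOpen_compl_iff, isOpen_iff_mem_nhds]
  intro x hx
  obtain ⟨U, hU, h1⟩ := h x
  refine mem_of_superset hU (fun y hy hyD => hx ?_)
  have : y = x := h1 ⟨hy, hyD⟩
  rwa [← this]

theorem CD.continuousOn {X : Type*} [TopologicalSpace X] {D : Set X} (h : CD D) (a : X → ℝ) :
    ContinuousOn a D := by
  intro x _
  obtain ⟨U, hU, h1⟩ := h x
  have : a =ᶠ[𝓝[D] x] fun _ => a x := by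
    filter_upwards [mem_nhdsWithin_of_mem_nhds hU, self_mem_nhdsWithin] with y hy hyD
    have : y = x := h1 ⟨hy, hyD⟩
    rw [this]
  exact (continuousWithinAt_const.congr_of_eventuallyEq this rfl)

theorem cd_finite {X : Type*} [TopologicalSpace X] [T1Space X] {D : Set X} (h : D.Finite) :
    CD D := by
  intro x
  refine ⟨(D \ {x})ᶜ, (h.subset sdiff_subset).isClosed.isOpen_compl.mem_nhds (by simp), ?_⟩
  rintro y ⟨h1, h2⟩
  by_contra h3
  exact h1 ⟨h2, h3⟩

theorem prescribe {X : Type*} [TopologicalSpace X] [NormalSpace X] {D Y : Set X} (hD : CD D)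
    (hY : IsClosed Y) (hDY : Disjoint D Y) (a : X → ℝ) :
    ∃ f : X → ℝ, Continuous f ∧ (∀ x ∈ D, f x = a x) ∧ ∀ y ∈ Y, f y = 0 := by
  classical
  let a0 : X → ℝ := fun x => if x ∈ Y then 0 else a x
  have h1 : ContinuousOn a0 (D ∪ Y) := by
    apply ContinuousOn.union_of_isClosed (hD.continuousOn a0) _ hD.isClosed hY
    exact continuousOn_const.congr (fun y hy => if_pos hy)
  obtain ⟨g, hg⟩ := ContinuousMap.exists_restrict_eq (hD.isClosed.union hY)
    (⟨(D ∪ Y).domRestrict a0, h1.domRestrict⟩ : C(↥(D ∪ Y), ℝ))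
  have h2 : ∀ x ∈ D ∪ Y, g x = a0 x := fun x hx => DFunLike.congr_fun hg ⟨x, hx⟩
  refine ⟨g, g.continuous, fun x hx => ?_, fun y hy => ?_⟩
  · rw [h2 x (Or.inl hx)]
    exact if_neg (fun h => disjoint_left.mp hDY hx h)
  · rw [h2 y (Or.inr hy)]
    exact if_pos hy

theorem exists_cd_of_not_compact {X : Type*} [MetricSpace X] {B : Set X} (hB : IsClosed B)
    (h : ¬ IsCompact B) : ∃ u : ℕ → X, Function.Injective u ∧ (∀ n, u n ∈ B) ∧ CD (range u) := by
  rw [isCompact_iff_isSeqCompact] at h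
  unfold IsSeqCompact at h
  push Not at h
  obtain ⟨v, hv, hno⟩ := h
  have h1 : ∀ x, ¬ MapClusterPt x atTop v := by
    intro x hx
    obtain ⟨φ, hφ, ht⟩ := hx.tendsto_subseq
    exact hno x (hB.mem_of_tendsto ht (Eventually.of_forall (fun n => hv _))) φ hφ ht
  have h2 : ∀ x, ∃ U ∈ 𝓝 x, {n | v n ∈ U}.Finite := by
    intro x
    have := h1 x
    rw [mapClusterPt_iff_frequently] at this
    push Not at this
    obtain ⟨U, hU, h3⟩ := this
    refine ⟨U, hU, ?_⟩
    rw [← Nat.cofinite_eq_atTop, eventually_cofinite] at h3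
    simpa using h3
  have h3 : CD (range v) := by
    intro x
    obtain ⟨U, hU, hf⟩ := h2 x
    obtain ⟨U', hU', h4⟩ := cd_finite (hf.image v) x
    refine ⟨U ∩ U', inter_mem hU hU', ?_⟩
    rintro y ⟨⟨h5, h6⟩, ⟨n, rfl⟩⟩
    exact h4 ⟨h6, mem_image_of_mem v h5⟩
  have h4 : (range v).Infinite := by
    intro hf
    have : (⋃ x ∈ range v, {n | v n = x}).Finite := by
      apply hf.biUnion
      intro x _
      obtain ⟨U, hU, h5⟩ := h2 x
      exact h5.subset (fun n hn => by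
        have : v n = x := hn
        show v n ∈ U
        rw [this]; exact mem_of_mem_nhds hU)
    apply infinite_univ (α := ℕ)
    exact this.subset (fun n _ => mem_biUnion (mem_range_self n) rfl)
  refine ⟨fun n => (h4.natEmbedding _ n : X), ?_, ?_, h3.mono ?_⟩
  · exact Subtype.val_injective.comp (h4.natEmbedding _).injective
  · intro n
    obtain ⟨k, hk⟩ := (h4.natEmbedding _ n).2
    show (h4.natEmbedding _ n : X) ∈ B
    rw [← hk]; exact hv k
  · rintro _ ⟨n, rfl⟩
    exact (h4.natEmbedding _ n).2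

theorem exists_cd_uncountable {X : Type*} [MetricSpace X] (h : ¬ SecondCountableTopology X) :
    ∃ D : Set X, ¬ D.Countable ∧ CD D := by
  by_contra hc
  push Not at hc
  apply h
  apply Metric.secondCountable_of_almost_dense_set
  intro ε hε
  obtain ⟨D, hD⟩ := zorn_subset {s : Set X | s.Pairwise (fun x y => ε < dist x y)} (by
    intro c hc1 hc2
    refine ⟨⋃₀ c, ?_, fun s hs => subset_sUnion_of_mem hs⟩
    rintro x ⟨s, hs, hx⟩ y ⟨t, ht, hy⟩ hxy
    rcases hc2.total hs ht with h1 | h1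
    · exact hc1 ht (h1 hx) hy hxy
    · exact hc1 hs hx (h1 hy) hxy)
  have hsep : D.Pairwise (fun x y => ε < dist x y) := hD.prop
  have hcd : CD D := by
    intro x
    by_cases h1 : ∃ d ∈ D, d ≠ x ∧ dist d x < ε / 2
    · obtain ⟨d, hd, hdx, hdd⟩ := h1
      refine ⟨Metric.ball x (dist d x), Metric.ball_mem_nhds x (dist_pos.mpr hdx), ?_⟩
      rintro y ⟨hy, hyD⟩
      exfalso
      rw [Metric.mem_ball] at hy
      have h2 : y ≠ d := by rintro rfl; exact lt_irrefl _ hy
      have h3 := hsep hyD hd h2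
      have h4 := dist_triangle_right y d x
      linarith
    · push Not at h1
      refine ⟨Metric.ball x (ε / 2), Metric.ball_mem_nhds x (half_pos hε), ?_⟩
      rintro y ⟨hy, hyD⟩
      by_contra h2
      exact absurd (Metric.mem_ball.mp hy) (not_lt.mpr (h1 y hyD h2))
  refine ⟨D, ?_, ?_⟩
  · by_contra h1
    exact hc D h1 hcd
  · intro x
    by_contra h1
    push Not at h1
    have h2 : (insert x D).Pairwise (fun x y => ε < dist x y) := by
      rintro a (rfl | ha) b (rfl | hb) hab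
      · exact absurd rfl hab
      · exact h1 b hb
      · rw [dist_comm]; exact h1 a ha
      · exact hsep ha hb hab
    have h3 : x ∈ D := hD.le_of_ge h2 (subset_insert x D) (mem_insert x D)
    have := h1 x h3
    rw [dist_self] at this
    linarith

theorem not_k {V : Type*} [TopologicalSpace V] [T1Space V] {S C : Set V} (hCS : C ⊆ S) {p : V}
    (hp : p ∈ S) (hpc : p ∈ closure C) (hpC : p ∉ C)
    (hfin : ∀ K, IsCompact K → (K ∩ C).Finite) : ¬ CompactlyCoherentSpace S := by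
  intro hk
  have h1 : IsClosed ((↑) ⁻¹' C : Set S) := by
    rw [CompactlyCoherentSpace.isClosed_iff]
    intro K hK
    apply Set.Finite.isClosed
    have h2 := hfin _ (hK.image continuous_subtype_val)
    refine Set.Finite.of_finite_image (f := fun z : K => ((z : S) : V)) (h2.subset ?_) ?_
    · rintro _ ⟨z, hz, rfl⟩
      exact ⟨mem_image_of_mem _ z.2, hz⟩
    · exact (Subtype.val_injective.comp Subtype.val_injective).injOn
  apply hpC
  have h2 : (⟨p, hp⟩ : S) ∈ closure ((↑) ⁻¹' C : Set S) := by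
    rw [closure_subtype, Subtype.image_preimage_coe, inter_eq_right.mpr hCS]
    exact hpc
  rw [h1.closure_eq] at h2
  exact h2

variable {X V : Type u} [AddCommGroup V] [Module ℝ V]

theorem mem_sp_two (i : X → V) {m : ℕ} (hm : 2 ≤ m) {s t : ℝ} (hs : |s| ≤ 1) (ht : |t| ≤ 1)
    (x y : X) : s • i x + t • i y ∈ sp i m := by
  obtain ⟨k, rfl⟩ := Nat.exists_eq_add_of_le' hm
  refine ⟨Fin.cons s (Fin.cons t (fun _ => 0)), Fin.cons x (fun _ => y), ?_, ?_⟩
  · have hk : (0 : ℝ) ≤ k := Nat.cast_nonneg k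
    have h1 := abs_le.mp hs
    have h2 := abs_le.mp ht
    intro j
    refine Fin.cases ?_ (fun j => Fin.cases ?_ (fun j => ?_) j) j
    · simp only [Fin.cons_zero]; push_cast; constructor <;> linarith [h1.1, h1.2]
    · simp only [Fin.cons_succ, Fin.cons_zero]; push_cast; constructor <;> linarith [h2.1, h2.2]
    · simp only [Fin.cons_succ]; push_cast; constructor <;> linarith
  · simp [Fin.sum_univ_succ]

variable [TopologicalSpace V]

theorem IsFreeTVS.ext_real [TopologicalSpace X] {i : X → V} (hi : IsFreeTVS i) {f : X → ℝ}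
    (hf : Continuous f) : ∃ g : V →L[ℝ] ℝ, ∀ x, g (i x) = f x := by
  have : ContinuousSMul ℝ (ULift.{u} ℝ) := ⟨continuous_uliftUp.comp (by fun_prop)⟩
  obtain ⟨g, hg, -⟩ := hi.2 (ULift.{u} ℝ) (fun x => ULift.up (f x)) (continuous_uliftUp.comp hf)
  refine ⟨(ContinuousLinearEquiv.ulift : ULift.{u} ℝ ≃L[ℝ] ℝ).toContinuousLinearMap.comp g, ?_⟩
  intro x
  simp only [ContinuousLinearMap.comp_apply, hg]
  rfl

theorem small_smul [ContinuousSMul ℝ V] (v : V) {W : Set V} (hW : W ∈ 𝓝 (0 : V)) :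
    ∃ N : ℕ, ∀ k : ℕ, N ≤ k → (1 / ((k : ℝ) + 1)) • v ∈ W := by
  have h1 : Tendsto (fun k : ℕ => (1 / ((k : ℝ) + 1)) • v) atTop (𝓝 ((0 : ℝ) • v)) :=
    tendsto_one_div_add_atTop_nhds_zero_nat.smul_const v
  rw [zero_smul] at h1
  exact eventually_atTop.mp (h1 hW)

theorem abs_inv_le (k : ℕ) : |1 / ((k : ℝ) + 1)| ≤ 1 := by
  have hk : (0 : ℝ) ≤ k := Nat.cast_nonneg k
  rw [abs_of_pos (by positivity), div_le_one (by positivity)]
  linarith

theorem bdd_of_compact {K : Set V} (hK : IsCompact K) (g : V →L[ℝ] ℝ) :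
    ∃ N : ℕ, ∀ v ∈ K, g v < N := by
  obtain ⟨b, hb⟩ := (hK.image g.continuous).bddAbove
  obtain ⟨N, hN⟩ := exists_nat_gt b
  exact ⟨N, fun v hv => lt_of_le_of_lt (hb (mem_image_of_mem g hv)) hN⟩

variable [IsTopologicalAddGroup V] [ContinuousSMul ℝ V] [T2Space V] [MetricSpace X]

theorem locallyCompact_of_k {i : X → V} (hi : IsFreeTVS i) {m : ℕ} (hm : 2 ≤ m)
    (hk : CompactlyCoherentSpace (sp i m)) : WeaklyLocallyCompactSpace X := by
  classical
  refine ⟨fun p => ?_⟩
  by_contra hp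
  have h1 : ∀ r : ℝ, 0 < r → ¬ IsCompact (Metric.closedBall p r) :=
    fun r hr hc => hp ⟨_, hc, Metric.closedBall_mem_nhds p hr⟩
  obtain ⟨d0, hd0, -, hcd0⟩ := exists_cd_of_not_compact Metric.isClosed_closedBall (h1 1 one_pos)
  -- a sequence avoiding `p`
  obtain ⟨d, hd, hcd, hdp⟩ : ∃ d : ℕ → X, Function.Injective d ∧ CD (range d) ∧ ∀ n, d n ≠ p := by
    by_cases h : ∃ n0, d0 n0 = p
    · obtain ⟨n0, hn0⟩ := h
      refine ⟨fun n => d0 (n + n0 + 1), fun a b hab => ?_, hcd0.mono ?_, fun n hn => ?_⟩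
      · have := hd0 hab; omega
      · rintro _ ⟨n, rfl⟩; exact mem_range_self _
      · rw [← hn0] at hn
        have := hd0 hn; omega
    · push Not at h
      exact ⟨d0, hd0, hcd0, h⟩
  obtain ⟨U, hU, hUd⟩ := hcd p
  obtain ⟨r0, hr0, hball⟩ := Metric.nhds_basis_closedBall.mem_iff.mp hU
  set Y := Metric.closedBall p r0 with hY
  have hdY : Disjoint (range d) Y := by
    rw [disjoint_left]
    rintro _ ⟨n, rfl⟩ h
    exact hdp n (hUd ⟨hball h, mem_range_self n⟩)
  have h2 : ∀ n : ℕ, ∃ u : ℕ → X, Function.Injective u ∧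
      (∀ k, u k ∈ Metric.closedBall p (r0 * (1 / ((n : ℝ) + 1)))) ∧ CD (range u) := fun n =>
    exists_cd_of_not_compact Metric.isClosed_closedBall (h1 _ (by positivity))
  choose y hy hyb hycd using h2
  have hyY : ∀ n k, y n k ∈ Y := by
    intro n k
    refine Metric.closedBall_subset_closedBall ?_ (hyb n k)
    have := le_trans (le_abs_self _) (abs_inv_le n)
    nlinarith
  let c : ℕ × ℕ → V := fun q => (1 / ((q.2 : ℝ) + 1)) • i (d q.1) + i (y q.1 q.2)
  refine not_k (C := range c) (p := i p) ?_ ?_ ?_ ?_ ?_ hk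
  · rintro _ ⟨q, rfl⟩
    have := mem_sp_two i hm (abs_inv_le q.2) (t := 1) (by simp) (d q.1) (y q.1 q.2)
    simpa [c] using this
  · have := mem_sp_two i hm (s := 1) (t := 0) (by simp) (by simp) p p
    simpa using this
  · rw [mem_closure_iff_nhds]
    intro W hW
    have h3 : (fun z : V × V => z.1 + z.2) ⁻¹' W ∈ 𝓝 ((0 : V), i p) := by
      apply continuous_add.continuousAt.preimage_mem_nhds
      simpa using hW
    rw [mem_nhds_prod_iff] at h3
    obtain ⟨W0, hW0, W1, hW1, hWW⟩ := h3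
    obtain ⟨ε, hε, hεW⟩ :=
      Metric.nhds_basis_closedBall.mem_iff.mp (hi.1.continuousAt.preimage_mem_nhds hW1)
    obtain ⟨n, hn⟩ := small_smul r0 (Metric.closedBall_mem_nhds (0 : ℝ) hε)
    have hn1 := hn n le_rfl
    obtain ⟨k, hk⟩ := small_smul (i (d n)) hW0
    refine ⟨c (n, k), hWW (mk_mem_prod (hk k le_rfl) (hεW ?_)), mem_range_self _⟩
    refine Metric.closedBall_subset_closedBall ?_ (hyb n k)
    rw [mem_closedBall_zero_iff, smul_eq_mul, mul_comm] at hn1
    exact le_trans (le_abs_self _) hn1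
  · rintro ⟨q, hq⟩
    obtain ⟨f, hf, hf1, hf2⟩ := prescribe hcd Metric.isClosed_closedBall hdY (fun _ => 1)
    obtain ⟨g, hg⟩ := hi.ext_real hf
    have h3 := congrArg g hq
    simp only [c, map_add, map_smul, hg, hf1 _ (mem_range_self _), hf2 _ (hyY _ _),
      hf2 p (Metric.mem_closedBall_self hr0.le), smul_eq_mul] at h3
    have : (0 : ℝ) < 1 / ((q.2 : ℝ) + 1) := by positivity
    linarith
  · intro K hK
    have h3 : {n | ∃ k, c (n, k) ∈ K}.Finite := by
      have h4 : ∀ n, ∃ k, (∃ k', c (n, k') ∈ K) → c (n, k) ∈ K := by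
        intro n
        by_cases h : ∃ k', c (n, k') ∈ K
        · obtain ⟨k', hk'⟩ := h
          exact ⟨k', fun _ => hk'⟩
        · exact ⟨0, fun h' => absurd h' h⟩
      choose κ hκ using h4
      obtain ⟨f, hf, hf1, hf2⟩ := prescribe hcd Metric.isClosed_closedBall hdY
        (Function.extend d (fun n => (n : ℝ) * ((κ n : ℝ) + 1)) (fun _ => 0))
      obtain ⟨g, hg⟩ := hi.ext_real hf
      obtain ⟨N, hN⟩ := bdd_of_compact hK g
      refine (finite_lt_nat N).subset (fun n hn => ?_)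
      have h5 := hN _ (hκ n hn)
      simp only [c, map_add, map_smul, hg, hf1 _ (mem_range_self _), hf2 _ (hyY _ _),
        smul_eq_mul, hd.extend_apply] at h5
      have h6 : (1 / ((κ n : ℝ) + 1)) * ((n : ℝ) * ((κ n : ℝ) + 1)) = n := by field_simp
      rw [h6, add_zero] at h5
      exact_mod_cast h5
    have h4 : ∀ n, {k | c (n, k) ∈ K}.Finite := by
      intro n
      have hdis : Disjoint (range (y n)) {d n} := by
        rw [disjoint_singleton_right]
        rintro ⟨k, hk⟩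
        exact disjoint_left.mp hdY (mem_range_self n) (hk ▸ hyY n k)
      obtain ⟨f, hf, hf1, hf2⟩ := prescribe (hycd n) isClosed_singleton hdis
        (Function.extend (y n) (fun k => (k : ℝ)) (fun _ => 0))
      obtain ⟨g, hg⟩ := hi.ext_real hf
      obtain ⟨N, hN⟩ := bdd_of_compact hK g
      refine (finite_lt_nat N).subset (fun k hk => ?_)
      have h5 := hN _ hk
      simp only [c, map_add, map_smul, hg, hf1 _ (mem_range_self _), hf2 _ (mem_singleton _),
        smul_eq_mul, (hy n).extend_apply, mul_zero, zero_add] at h5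
      exact_mod_cast h5
    refine (h3.biUnion (fun n _ => (h4 n).image (fun k => c (n, k)))).subset ?_
    rintro _ ⟨hv, ⟨⟨n, k⟩, rfl⟩⟩
    exact mem_biUnion (show n ∈ {n | ∃ k, c (n, k) ∈ K} from ⟨k, hv⟩) ⟨k, hv, rfl⟩

theorem exists_rho {X : Type*} {D : Set X} (hD : ¬ D.Countable) :
    ∃ (R : Set (X × X)) (ρ : X × X → ℕ), R ⊆ D ×ˢ D ∧
      ∀ N : X → ℕ, ∃ q ∈ R, N q.1 ≤ ρ q ∧ N q.2 ≤ ρ q := by
  classical
  obtain ⟨_, _⟩ := exists_wellFoundedLT X
  let I : Set X := {x | x ∈ D ∧ (D ∩ Iio x).Countable}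
  have hI : ¬ I.Countable := by
    intro hc
    have hne : (D \ I).Nonempty := by
      by_contra h
      rw [not_nonempty_iff_eq_empty, sdiff_eq_empty] at h
      exact hD (hc.mono h)
    let a := wellFounded_lt.min _ hne
    have ha : a ∈ D \ I := wellFounded_lt.min_mem _ hne
    apply ha.2
    refine ⟨ha.1, hc.mono ?_⟩
    rintro x ⟨hx, hxa⟩
    by_contra hxI
    exact wellFounded_lt.not_lt_min (D \ I) ⟨hx, hxI⟩ hxa
  have he : ∀ x, ∃ e : X → ℕ, x ∈ I → InjOn e (D ∩ Iio x) := by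
    intro x
    by_cases hx : x ∈ I
    · obtain ⟨e, he⟩ := Set.countable_iff_exists_injOn.mp hx.2
      exact ⟨e, fun _ => he⟩
    · exact ⟨fun _ => 0, fun h => absurd h hx⟩
  choose e he using he
  refine ⟨{q | q.1 ∈ I ∧ q.2 ∈ D ∩ Iio q.1}, fun q => e q.1 q.2,
    fun q hq => ⟨hq.1.1, hq.2.1⟩, fun N => ?_⟩
  obtain ⟨n, hn⟩ : ∃ n, ¬ (I ∩ {x | N x = n}).Countable := by
    by_contra h
    push Not at h
    apply hI
    refine (countable_iUnion h).mono (fun x hx => mem_iUnion.mpr ⟨N x, ?_⟩)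
    exact ⟨hx, rfl⟩
  set A := I ∩ {x | N x = n} with hA
  have hAinf : A.Infinite := fun h => hn h.countable
  let b : ℕ → X := fun k => (hAinf.natEmbedding _ k : X)
  have hb : Function.Injective b := Subtype.val_injective.comp (hAinf.natEmbedding _).injective
  have hbA : ∀ k, b k ∈ A := fun k => (hAinf.natEmbedding _ k).2
  obtain ⟨α, hαA, hα⟩ : ∃ α ∈ A, ∀ k, b k < α := by
    by_contra h
    push Not at h
    apply hn
    have : (⋃ k, insert (b k) (D ∩ Iio (b k))).Countable :=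
      countable_iUnion (fun k => (hbA k).1.2.insert _)
    refine this.mono (fun x hx => ?_)
    obtain ⟨k, hk⟩ := h x hx
    refine mem_iUnion.mpr ⟨k, ?_⟩
    rcases hk.eq_or_lt with h1 | h1
    · exact Or.inl h1
    · exact Or.inr ⟨hx.1.1, h1⟩
  have hinj : Function.Injective (fun k => e α (b k)) := fun k l hkl =>
    hb (he α hαA.1 ⟨(hbA k).1.1, hα k⟩ ⟨(hbA l).1.1, hα l⟩ hkl)
  obtain ⟨k, hk⟩ : ∃ k, n ≤ e α (b k) := by
    by_contra h
    push Not at h
    exact infinite_range_of_injective hinj ((finite_lt_nat n).subset (by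
      rintro _ ⟨k, rfl⟩; exact h k))
  refine ⟨(α, b k), ⟨hαA.1, (hbA k).1.1, hα k⟩, ?_, ?_⟩
  · have : N α = n := hαA.2
    simpa [this] using hk
  · have : N (b k) = n := (hbA k).2
    simpa [this] using hk

theorem secondCountable_of_k {i : X → V} (hi : IsFreeTVS i) {m : ℕ} (hm : 2 ≤ m)
    (hk : CompactlyCoherentSpace (sp i m)) : SecondCountableTopology X := by
  classical
  by_contra hX
  obtain ⟨D, hD, hcd⟩ := exists_cd_uncountable hX
  obtain ⟨R, ρ, hR, hρ⟩ := exists_rho hD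
  let c : X × X → V := fun q => (1 / ((ρ q : ℝ) + 1)) • i q.1 + (1 / ((ρ q : ℝ) + 1)) • i q.2
  obtain ⟨⟨x0, -⟩, -⟩ := hρ (fun _ => 0)
  refine not_k (C := c '' R) (p := 0) ?_ ?_ ?_ ?_ ?_ hk
  · rintro _ ⟨q, -, rfl⟩
    exact mem_sp_two i hm (abs_inv_le _) (abs_inv_le _) q.1 q.2
  · have := mem_sp_two i hm (s := 0) (t := 0) (by simp) (by simp) x0 x0
    simpa using this
  · rw [mem_closure_iff_nhds]
    intro W hW
    obtain ⟨W0, hW0, hWW⟩ := exists_nhds_zero_half hW
    choose N hN using fun x => small_smul (i x) hW0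
    obtain ⟨q, hq, h1, h2⟩ := hρ N
    exact ⟨c q, hWW _ (hN _ _ h1) _ (hN _ _ h2), mem_image_of_mem c hq⟩
  · rintro ⟨q, -, hq⟩
    obtain ⟨g, hg⟩ := hi.ext_real (continuous_const (y := (1 : ℝ)))
    have h3 := congrArg g hq
    simp only [c, map_add, map_smul, hg, map_zero, smul_eq_mul] at h3
    have : (0 : ℝ) < 1 / ((ρ q : ℝ) + 1) := by positivity
    linarith
  · intro K hK
    let T : Set (X × X) := {q | q ∈ R ∧ c q ∈ K}
    let J : Set X := {x | ∃ q ∈ T, q.1 = x ∨ q.2 = x}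
    have hJ : J.Finite := by
      by_contra hJ
      have hJ' : J.Infinite := hJ
      let γ : ℕ → X := fun k => (hJ'.natEmbedding _ k : X)
      have hγ : Function.Injective γ := Subtype.val_injective.comp (hJ'.natEmbedding _).injective
      have hγJ : ∀ k, γ k ∈ J := fun k => (hJ'.natEmbedding _ k).2
      choose t ht hγt using hγJ
      let a : X → ℝ := Function.extend γ (fun k => (k : ℝ) * ((ρ (t k) : ℝ) + 1)) (fun _ => 0)
      have ha : ∀ x, 0 ≤ a x := by
        intro x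
        by_cases h : ∃ k, γ k = x
        · obtain ⟨k, rfl⟩ := h
          simp only [a, hγ.extend_apply]
          positivity
        · simp only [a, Function.extend_apply' _ _ _ h, le_refl]
      obtain ⟨f, hf, hf1, -⟩ := prescribe hcd isClosed_empty (disjoint_empty D) a
      obtain ⟨g, hg⟩ := hi.ext_real hf
      obtain ⟨N, hN⟩ := bdd_of_compact hK g
      have h5 := hN _ (ht N).2
      have h6 := hR (ht N).1
      simp only [c, map_add, map_smul, hg, hf1 _ h6.1, hf1 _ h6.2, smul_eq_mul] at h5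
      have h7 : a (γ N) ≤ a (t N).1 + a (t N).2 := by
        rcases hγt N with h | h
        · rw [← h]; linarith [ha (t N).2]
        · rw [← h]; linarith [ha (t N).1]
      simp only [a, hγ.extend_apply] at h7
      have h8 : (0 : ℝ) < (ρ (t N) : ℝ) + 1 := by positivity
      rw [← mul_add, one_div, inv_mul_lt_iff₀ h8] at h5
      simp only [a] at h5
      linarith
    refine ((hJ.prod hJ).image c).subset ?_
    rintro _ ⟨hv, ⟨q, hq, rfl⟩⟩
    exact ⟨q, ⟨⟨q, ⟨hq, hv⟩, Or.inl rfl⟩, ⟨q, ⟨hq, hv⟩, Or.inr rfl⟩⟩, rfl⟩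

end Pool.Agent.Lib.MP_7b06ad_gt
end

-- part Pool.Agent.Lib.MP_7b06ad_gt.Coherent
section

set_option autoImplicit false
open Set Filter Topology

namespace Pool.Agent.Lib.MP_7b06ad_gt

/-- `U` is relatively open in every `M n`. -/
def CohOpen {A : Type*} [TopologicalSpace A] (M : ℕ → Set A) (U : Set A) : Prop :=
  ∀ n, ∀ x ∈ M n, x ∈ U → U ∈ 𝓝[M n] x

/-- the topology coherent with the sequence `M` -/
@[reducible] def cohTop {A : Type*} [TopologicalSpace A] (M : ℕ → Set A) : TopologicalSpace A where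
  IsOpen U := CohOpen M U
  isOpen_univ := fun _ _ _ _ => univ_mem
  isOpen_inter := fun _ _ hs ht n x hx h => inter_mem (hs n x hx h.1) (ht n x hx h.2)
  isOpen_sUnion := fun _ hs n x hx ⟨t, ht, hxt⟩ =>
    mem_of_superset (hs t ht n x hx hxt) (subset_sUnion_of_mem ht)

theorem cohOpen_of_isOpen {A : Type*} [TopologicalSpace A] (M : ℕ → Set A) {U : Set A}
    (h : IsOpen U) : CohOpen M U :=
  fun _ _ _ hx => mem_nhdsWithin_of_mem_nhds (h.mem_nhds hx)

theorem cohTop_le {A : Type*} [t : TopologicalSpace A] (M : ℕ → Set A) : cohTop M ≤ t :=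
  fun _ h => cohOpen_of_isOpen M h

theorem step {A B : Type*} [TopologicalSpace A] [TopologicalSpace B] [RegularSpace A]
    [RegularSpace B] {M : Set A} {N : Set B} (hM : IsCompact M) (hN : IsCompact N)
    {W : Set (A × B)} (hW : ∀ z ∈ M ×ˢ N, z ∈ W → W ∈ 𝓝[M ×ˢ N] z)
    {P : Set A} {Q : Set B} (hP : IsCompact P) (hQ : IsCompact Q) (hPM : P ⊆ M) (hQN : Q ⊆ N)
    (hPQ : P ×ˢ Q ⊆ W) :
    ∃ (P' : Set A) (Q' : Set B), IsCompact P' ∧ IsCompact Q' ∧ P' ⊆ M ∧ Q' ⊆ N ∧ P' ×ˢ Q' ⊆ W ∧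
      (∀ x ∈ P, x ∈ P' ∧ P' ∈ 𝓝[M] x) ∧ (∀ y ∈ Q, y ∈ Q' ∧ Q' ∈ 𝓝[N] y) := by
  let W' : Set (A × B) := interior (W ∪ (M ×ˢ N)ᶜ)
  have h1 : P ×ˢ Q ⊆ W' := by
    intro z hz
    have := hW z (prod_mono hPM hQN hz) (hPQ hz)
    rw [mem_nhdsWithin_iff_eventually] at this
    apply mem_interior_iff_mem_nhds.mpr
    filter_upwards [this] with w hw
    by_cases h : w ∈ M ×ˢ N
    · exact Or.inl (hw h)
    · exact Or.inr h
  obtain ⟨O, O', hO, hO', hPO, hQO, hOO⟩ := generalized_tube_lemma hP hQ isOpen_interior h1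
  obtain ⟨O1, hO1, hPO1, hc1⟩ := hP.exists_isOpen_closure_subset (hO.mem_nhdsSet.mpr hPO)
  obtain ⟨O2, hO2, hQO2, hc2⟩ := hQ.exists_isOpen_closure_subset (hO'.mem_nhdsSet.mpr hQO)
  refine ⟨M ∩ closure O1, N ∩ closure O2, hM.inter_right isClosed_closure,
    hN.inter_right isClosed_closure, inter_subset_left, inter_subset_left, ?_, ?_, ?_⟩
  · rintro ⟨x, y⟩ ⟨⟨hx1, hx2⟩, ⟨hy1, hy2⟩⟩
    have := interior_subset (hOO (mk_mem_prod (hc1 hx2) (hc2 hy2)))
    rcases this with h | h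
    · exact h
    · exact absurd (mk_mem_prod hx1 hy1) h
  · intro x hx
    refine ⟨⟨hPM hx, subset_closure (hPO1 hx)⟩, inter_mem self_mem_nhdsWithin ?_⟩
    exact mem_nhdsWithin_of_mem_nhds (mem_of_superset (hO1.mem_nhds (hPO1 hx)) subset_closure)
  · intro x hx
    refine ⟨⟨hQN hx, subset_closure (hQO2 hx)⟩, inter_mem self_mem_nhdsWithin ?_⟩
    exact mem_nhdsWithin_of_mem_nhds (mem_of_superset (hO2.mem_nhds (hQO2 hx)) subset_closure)

theorem cohOpen_union {A : Type*} [TopologicalSpace A] {M : ℕ → Set A} (hM : Monotone M)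
    (n0 : ℕ) (P : ℕ → Set A) (h : ∀ k, ∀ x ∈ P k, x ∈ P (k + 1) ∧ P (k + 1) ∈ 𝓝[M (n0 + k + 1)] x) :
    Monotone P ∧ CohOpen M (⋃ k, P k) := by
  have hmono : Monotone P := monotone_nat_of_le_succ (fun k x hx => (h k x hx).1)
  refine ⟨hmono, ?_⟩
  intro n x _ hx
  obtain ⟨k, hk⟩ := mem_iUnion.mp hx
  have h1 := (h (max k n) x (hmono (le_max_left _ _) hk)).2
  have h2 : M n ⊆ M (n0 + max k n + 1) := hM (by omega)
  exact mem_of_superset (nhdsWithin_mono x h2 h1) (subset_iUnion P _)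

theorem prod_lemma {A B : Type*} [TopologicalSpace A] [TopologicalSpace B] [RegularSpace A]
    [RegularSpace B] {M : ℕ → Set A} {N : ℕ → Set B} (hM : ∀ n, IsCompact (M n))
    (hN : ∀ n, IsCompact (N n)) (hMm : Monotone M) (hNm : Monotone N)
    {W : Set (A × B)} (hW : CohOpen (fun n => M n ×ˢ N n) W) {a : A} {b : B} {n0 : ℕ}
    (ha : a ∈ M n0) (hb : b ∈ N n0) (hab : (a, b) ∈ W) :
    ∃ (U : Set A) (U' : Set B), CohOpen M U ∧ CohOpen N U' ∧ a ∈ U ∧ b ∈ U' ∧ U ×ˢ U' ⊆ W := by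
  let T : ℕ → Set A × Set B → Prop := fun k p =>
    IsCompact p.1 ∧ IsCompact p.2 ∧ p.1 ⊆ M (n0 + k) ∧ p.2 ⊆ N (n0 + k) ∧ p.1 ×ˢ p.2 ⊆ W
  let r : ℕ → Set A × Set B → Set A × Set B → Prop := fun k p q =>
    (∀ x ∈ p.1, x ∈ q.1 ∧ q.1 ∈ 𝓝[M (n0 + k + 1)] x) ∧
      (∀ y ∈ p.2, y ∈ q.2 ∧ q.2 ∈ 𝓝[N (n0 + k + 1)] y)
  have h0 : T 0 ({a}, {b}) := by
    refine ⟨isCompact_singleton, isCompact_singleton, by simpa using ha, by simpa using hb, ?_⟩
    simpa using hab
  have hs : ∀ k p, T k p → ∃ q, T (k + 1) q ∧ r k p q := by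
    rintro k ⟨P, Q⟩ ⟨h1, h2, h3, h4, h5⟩
    obtain ⟨P', Q', g1, g2, g3, g4, g5, g6, g7⟩ := step (hM (n0 + k + 1)) (hN (n0 + k + 1))
      (hW (n0 + k + 1)) h1 h2 (h3.trans (hMm (Nat.le_succ _))) (h4.trans (hNm (Nat.le_succ _))) h5
    exact ⟨(P', Q'), ⟨g1, g2, g3, g4, g5⟩, g6, g7⟩
  choose! nxt hT hr using hs
  let s : ℕ → Set A × Set B := fun k => Nat.rec ({a}, {b}) (fun k p => nxt k p) k
  have hsT : ∀ k, T k (s k) := by
    intro k
    induction k with
    | zero => exact h0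
    | succ k ih => exact hT k _ ih
  have hsr : ∀ k, r k (s k) (s (k + 1)) := fun k => hr k _ (hsT k)
  obtain ⟨m1, c1⟩ := cohOpen_union hMm n0 (fun k => (s k).1) (fun k => (hsr k).1)
  obtain ⟨m2, c2⟩ := cohOpen_union hNm n0 (fun k => (s k).2) (fun k => (hsr k).2)
  refine ⟨_, _, c1, c2, mem_iUnion.mpr ⟨0, rfl⟩, mem_iUnion.mpr ⟨0, rfl⟩, ?_⟩
  rintro ⟨x, y⟩ ⟨hx, hy⟩
  obtain ⟨k, hk⟩ := mem_iUnion.mp hx
  obtain ⟨l, hl⟩ := mem_iUnion.mp hy
  exact (hsT (max k l)).2.2.2.2 (mk_mem_prod (m1 (le_max_left k l) hk) (m2 (le_max_right k l) hl))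

theorem continuous_coh₂ {A B C : Type*} [TopologicalSpace A] [TopologicalSpace B]
    [TopologicalSpace C] [RegularSpace A]
    [RegularSpace B] {M : ℕ → Set A} {N : ℕ → Set B} {L : ℕ → Set C} (hM : ∀ n, IsCompact (M n))
    (hN : ∀ n, IsCompact (N n)) (hMm : Monotone M) (hNm : Monotone N)
    (hMc : ∀ a, ∃ n, a ∈ M n) (hNc : ∀ b, ∃ n, b ∈ N n) {f : A × B → C} (hf : Continuous f)
    (hL : ∀ n, ∃ m, MapsTo f (M n ×ˢ N n) (L m)) :
    Continuous[@instTopologicalSpaceProd A B (cohTop M) (cohTop N), cohTop L] f := by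
  refine (@continuous_def _ _ (@instTopologicalSpaceProd A B (cohTop M) (cohTop N))
    (cohTop L) f).mpr ?_
  intro U hU
  have hW : CohOpen (fun n => M n ×ˢ N n) (f ⁻¹' U) := by
    intro n z hz hzU
    obtain ⟨m, hm⟩ := hL n
    exact (hf.continuousWithinAt.tendsto_nhdsWithin hm) (hU m (f z) (hm hz) hzU)
  refine (@isOpen_prod_iff A B (cohTop M) (cohTop N) _).mpr ?_
  intro a b hab
  obtain ⟨n1, h1⟩ := hMc a
  obtain ⟨n2, h2⟩ := hNc b
  obtain ⟨U1, U2, g1, g2, g3, g4, g5⟩ := prod_lemma hM hN hMm hNm hW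
    (hMm (le_max_left n1 n2) h1) (hNm (le_max_right n1 n2) h2) hab
  exact ⟨U1, U2, g1, g2, g3, g4, g5⟩

theorem cohTop_eq_of_nhds {A : Type*} [t : TopologicalSpace A] (M : ℕ → Set A)
    (h : ∀ a, ∃ n, M n ∈ 𝓝 a) : cohTop M = t := by
  apply le_antisymm (cohTop_le M)
  intro U hU
  rw [isOpen_iff_mem_nhds]
  intro a ha
  obtain ⟨n, hn⟩ := h a
  have := hU n a (mem_of_mem_nhds hn) ha
  rwa [nhdsWithin_eq_nhds.mpr hn] at this

end Pool.Agent.Lib.MP_7b06ad_gt
end

-- part Pool.Agent.Lib.MP_7b06ad_gt.KOmega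
section

set_option autoImplicit false
open Set Filter Topology Pointwise

universe u

namespace Pool.Agent.Lib.MP_7b06ad_gt

variable {X V : Type u} [AddCommGroup V] [Module ℝ V]

/-- one-term combinations -/
def one (i : X → V) (r : ℝ) (K : Set X) : Set V :=
  insert 0 ((fun q : ℝ × X => q.1 • i q.2) '' (Icc (-r) r ×ˢ K))

/-- `k`-term combinations -/
def many (i : X → V) (r : ℝ) (K : Set X) (k : ℕ) : Set V :=
  (fun b : Fin k → V => ∑ j, b j) '' (Set.pi univ (fun _ => one i r K))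

theorem one_mono (i : X → V) {r r' : ℝ} {K K' : Set X} (hr : r ≤ r') (hK : K ⊆ K') :
    one i r K ⊆ one i r' K' :=
  insert_subset_insert (image_mono (prod_mono (Icc_subset_Icc (neg_le_neg hr) hr) hK))

theorem zero_mem_many (i : X → V) (r : ℝ) (K : Set X) (k : ℕ) : (0 : V) ∈ many i r K k :=
  ⟨fun _ => 0, fun _ _ => mem_insert _ _, by simp⟩

theorem add_mem_many (i : X → V) (r : ℝ) (K : Set X) {k l : ℕ} {v w : V} (hv : v ∈ many i r K k)
    (hw : w ∈ many i r K l) : v + w ∈ many i r K (k + l) := by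
  obtain ⟨b, hb, rfl⟩ := hv
  obtain ⟨c, hc, rfl⟩ := hw
  refine ⟨Fin.append b c, ?_, ?_⟩
  · intro j _
    refine Fin.addCases (fun j => ?_) (fun j => ?_) j
    · rw [Fin.append_left]; exact hb j (mem_univ _)
    · rw [Fin.append_right]; exact hc j (mem_univ _)
  · simp [Fin.sum_univ_add]

theorem many_mono (i : X → V) {r r' : ℝ} {K K' : Set X} {k k' : ℕ} (hr : r ≤ r') (hK : K ⊆ K')
    (hk : k ≤ k') : many i r K k ⊆ many i r' K' k' := by
  obtain ⟨l, rfl⟩ := Nat.exists_eq_add_of_le hk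
  rintro _ ⟨b, hb, rfl⟩
  have h1 : (∑ j, b j) ∈ many i r' K' k := ⟨b, fun j hj => one_mono i hr hK (hb j hj), rfl⟩
  simpa using add_mem_many i r' K' h1 (zero_mem_many i r' K' l)

theorem smul_mem_many (i : X → V) {r s t : ℝ} (K : Set X) {k : ℕ} {v : V}
    (ht : t ∈ Icc (-s) s) (hv : v ∈ many i r K k) : t • v ∈ many i (s * r) K k := by
  obtain ⟨b, hb, rfl⟩ := hv
  refine ⟨fun j => t • b j, fun j hj => ?_, by simp [Finset.smul_sum]⟩
  rcases hb j hj with h | ⟨⟨a, x⟩, ⟨ha, hx⟩, h⟩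
  · left; simp [h]
  · right
    refine ⟨(t * a, x), ⟨?_, hx⟩, ?_⟩
    · have h1 : |t| ≤ s := abs_le.mpr ht
      have h2 : |a| ≤ r := abs_le.mpr ha
      apply abs_le.mp
      rw [abs_mul]
      exact mul_le_mul h1 h2 (abs_nonneg _) (le_trans (abs_nonneg _) h1)
    · simp only [← h, mul_smul]

theorem mem_many_one (i : X → V) {r : ℝ} (hr : 1 ≤ r) {K : Set X} {x : X} (hx : x ∈ K) :
    i x ∈ many i r K 1 :=
  ⟨fun _ => i x, fun _ _ => Or.inr ⟨(1, x), ⟨⟨by linarith, hr⟩, hx⟩, by simp⟩, by simp⟩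

variable [TopologicalSpace V] [IsTopologicalAddGroup V] [ContinuousSMul ℝ V]

theorem isCompact_many [TopologicalSpace X] {i : X → V} (hi : Continuous i) (r : ℝ) {K : Set X}
    (hK : IsCompact K) (k : ℕ) : IsCompact (many i r K k) := by
  apply IsCompact.image
  · apply isCompact_univ_pi
    intro _
    apply IsCompact.insert
    apply (isCompact_Icc.prod hK).image
    fun_prop
  · fun_prop

variable [T2Space V]

theorem IsFreeTVS.span_eq_top [TopologicalSpace X] {i : X → V} (hi : IsFreeTVS i) :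
    Submodule.span ℝ (range i) = ⊤ := by
  set S := Submodule.span ℝ (range i) with hS
  have hmem : ∀ x, i x ∈ S := fun x => Submodule.subset_span (mem_range_self x)
  obtain ⟨g, hg, -⟩ := hi.2 S (fun x => ⟨i x, hmem x⟩) (hi.1.subtype_mk _)
  obtain ⟨g0, -, hu⟩ := hi.2 V i hi.1
  have h1 : S.subtypeL.comp g = ContinuousLinearMap.id ℝ V := by
    rw [hu (S.subtypeL.comp g) (fun x => by simp [hg]), hu (ContinuousLinearMap.id ℝ V)
      (fun x => rfl)]
  rw [eq_top_iff]
  intro v _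
  have : ((g v : S) : V) = v := DFunLike.congr_fun h1 v
  rw [← this]
  exact (g v).2

theorem IsFreeTVS.linearIndependent [MetricSpace X] {i : X → V} (hi : IsFreeTVS i) :
    LinearIndependent ℝ i := by
  classical
  rw [linearIndependent_iff']
  intro s c hc x hx
  obtain ⟨f, hf, hf1, -⟩ := prescribe (cd_finite s.finite_toSet) isClosed_empty
    (disjoint_empty _) (fun y => if y = x then 1 else 0)
  obtain ⟨g, hg⟩ := hi.ext_real hf
  have h1 := congrArg g hc
  rw [map_sum, map_zero, Finset.sum_eq_single x] at h1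
  · simpa [hg, hf1 x hx] using h1
  · intro y hy hyx
    simp [hg, hf1 y hy, hyx]
  · intro h; exact absurd hx h

theorem coherent [TopologicalSpace X] {i : X → V} (hi : IsFreeTVS i) (K : CompactExhaustion X)
    {U : Set V} (hU : CohOpen (fun n : ℕ => many i n (K n) n) U) : IsOpen U := by
  set L : ℕ → Set V := fun n : ℕ => many i n (K n) n with hL
  have hLc : ∀ n, IsCompact (L n) := fun n => isCompact_many hi.1 _ (K.isCompact n) n
  have hLm : Monotone L := fun a b hab => many_mono i (by exact_mod_cast hab) (K.subset hab) hab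
  have hadd : ∀ n, MapsTo (fun z : V × V => z.1 + z.2) (L n ×ˢ L n) (L (n + n)) := by
    rintro n ⟨v, w⟩ ⟨hv, hw⟩
    exact many_mono i (by push_cast; linarith [Nat.cast_nonneg (α := ℝ) n])
      (K.subset (Nat.le_add_right n n)) le_rfl (add_mem_many i _ _ hv hw)
  have hsmul : ∀ n : ℕ, MapsTo (fun z : ℝ × V => z.1 • z.2) (Icc (-(n : ℝ)) n ×ˢ L n)
      (L (n * n)) := by
    rintro n ⟨t, w⟩ ⟨ht, hw⟩
    exact many_mono i (by push_cast; exact le_rfl) (K.subset (Nat.le_mul_self n))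
      (Nat.le_mul_self n) (smul_mem_many i _ ht hw)
  have hiL : ∀ n, MapsTo i (K n) (L (n + 1)) := fun n x hx =>
    many_mono i le_rfl (K.subset_succ n) (Nat.le_add_left 1 n)
      (mem_many_one i (by push_cast; linarith [Nat.cast_nonneg (α := ℝ) n]) hx)
  have hIm : Monotone (fun n : ℕ => Icc (-(n : ℝ)) n) := fun a b hab =>
    Icc_subset_Icc (neg_le_neg (by exact_mod_cast hab)) (by exact_mod_cast hab)
  have hIn : ∀ t : ℝ, ∃ n : ℕ, Icc (-(n : ℝ)) n ∈ 𝓝 t := by
    intro t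
    obtain ⟨n, hn⟩ := exists_nat_gt |t|
    have := abs_lt.mp hn
    exact ⟨n, Icc_mem_nhds this.1 this.2⟩
  have hIc : ∀ t : ℝ, ∃ n : ℕ, t ∈ Icc (-(n : ℝ)) n := fun t =>
    (hIn t).imp fun _ h => mem_of_mem_nhds h
  have hcov : ∀ v, ∃ n, v ∈ L n := by
    intro v
    have hv : v ∈ Submodule.span ℝ (range i) := by rw [hi.span_eq_top]; trivial
    induction hv using Submodule.span_induction with
    | mem v hv =>
      obtain ⟨x, rfl⟩ := hv
      obtain ⟨n, hn⟩ := K.exists_mem x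
      exact ⟨n + 1, hiL n hn⟩
    | zero => exact ⟨0, zero_mem_many _ _ _ _⟩
    | add v w _ _ h1 h2 =>
      obtain ⟨a, ha⟩ := h1
      obtain ⟨b, hb⟩ := h2
      exact ⟨_, hadd (max a b) (mk_mem_prod (hLm (le_max_left a b) ha) (hLm (le_max_right a b) hb))⟩
    | smul t v _ h1 =>
      obtain ⟨a, ha⟩ := hIc t
      obtain ⟨b, hb⟩ := h1
      exact ⟨_, hsmul (max a b)
        (mk_mem_prod (hIm (le_max_left a b) ha) (hLm (le_max_right a b) hb))⟩
  have c1 : Continuous[@instTopologicalSpaceProd V V (cohTop L) (cohTop L), cohTop L]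
      (fun z : V × V => z.1 + z.2) :=
    continuous_coh₂ hLc hLc hLm hLm hcov hcov continuous_add (fun n => ⟨_, hadd n⟩)
  have c2 : Continuous[@instTopologicalSpaceProd ℝ V _ (cohTop L), cohTop L]
      (fun z : ℝ × V => z.1 • z.2) := by
    have := continuous_coh₂ (M := fun n : ℕ => Icc (-(n : ℝ)) n) (N := L) (L := L)
      (fun _ => isCompact_Icc) hLc hIm hLm hIc hcov continuous_smul (fun n => ⟨_, hsmul n⟩)
    rwa [cohTop_eq_of_nhds _ hIn] at this
  have i2 : @ContinuousSMul ℝ V _ _ (cohTop L) := @ContinuousSMul.mk ℝ V _ _ (cohTop L) c2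
  have i1 : @IsTopologicalAddGroup V (cohTop L) _ := by
    let : TopologicalSpace V := cohTop L
    have : ContinuousAdd V := ⟨c1⟩
    have : ContinuousNeg V := ⟨by
      have : (fun v : V => -v) = fun v => (-1 : ℝ) • v := by funext v; simp
      rw [this]; fun_prop⟩
    exact {}
  have i3 : @T2Space V (cohTop L) := t2Space_antitone (cohTop_le L) inferInstance
  have c3 : Continuous[_, cohTop L] i := by
    refine (@continuous_def _ _ _ (cohTop L) i).mpr (fun W hW => ?_)
    rw [isOpen_iff_mem_nhds]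
    intro x hx
    obtain ⟨n, hn⟩ := K.exists_mem_nhds x
    have := (hi.1.continuousWithinAt.tendsto_nhdsWithin (hiL n))
      (hW (n + 1) (i x) (hiL n (mem_of_mem_nhds hn)) hx)
    rwa [nhdsWithin_eq_nhds.mpr hn] at this
  obtain ⟨g, hg, -⟩ := @hi.2 V _ _ (cohTop L) i1 i2 i3 i c3
  have hgc : Continuous[_, cohTop L] g :=
    @ContinuousLinearMap.continuous _ _ _ _ _ _ _ _ _ (cohTop L) _ _ _ g
  have hgid : ∀ v, g v = v := by
    intro v
    have hv : v ∈ Submodule.span ℝ (range i) := by rw [hi.span_eq_top]; trivial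
    induction hv using Submodule.span_induction with
    | mem v hv => obtain ⟨x, rfl⟩ := hv; exact hg x
    | zero => exact map_zero g
    | add v w _ _ h1 h2 => rw [map_add, h1, h2]
    | smul t v _ h1 => rw [map_smul, h1]
  have h1 := (@continuous_def _ _ _ (cohTop L) g).mp hgc U hU
  have h2 : g ⁻¹' U = U := by ext v; simp [hgid]
  rwa [h2] at h1

theorem sp_inter_subset [MetricSpace X] {i : X → V} (hi : IsFreeTVS i) (K : Set X) (r : ℝ)
    (n k : ℕ) : sp i n ∩ many i r K k ⊆ many i n K n := by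
  classical
  let B : Module.Basis X ℝ V := Module.Basis.mk hi.linearIndependent hi.span_eq_top.ge
  let π : V →ₗ[ℝ] V := B.constr ℝ (fun x => if x ∈ K then i x else 0)
  have hπ : ∀ x, π (i x) = if x ∈ K then i x else 0 := by
    intro x
    have : i x = B x := (Module.Basis.mk_apply _ _ x).symm
    conv_lhs => rw [this]
    exact B.constr_basis ℝ _ x
  rintro v ⟨⟨l, x, hl, hv⟩, ⟨b, hb, hv'⟩⟩
  have h1 : π v = v := by
    rw [← hv', map_sum]
    apply Finset.sum_congr rfl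
    intro j hj
    rcases hb j (mem_univ _) with h | ⟨⟨a, y⟩, ⟨-, hy⟩, h⟩
    · rw [h, map_zero]
    · rw [← h, map_smul, hπ, if_pos hy]
  refine ⟨fun j => π (l j • i (x j)), fun j _ => ?_, ?_⟩
  · show π (l j • i (x j)) ∈ one i n K
    rw [map_smul, hπ]
    split_ifs with h
    · exact Or.inr ⟨(l j, x j), ⟨hl j, h⟩, rfl⟩
    · left; simp
  · show ∑ j, π (l j • i (x j)) = v
    rw [← map_sum, ← hv, h1]

omit [TopologicalSpace V] [IsTopologicalAddGroup V] [ContinuousSMul ℝ V] [T2Space V] in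
theorem many_subset_sp [Nonempty X] (i : X → V) (K : Set X) (n : ℕ) :
    many i n K n ⊆ sp i n := by
  rintro _ ⟨b, hb, rfl⟩
  have : ∀ j, ∃ q : ℝ × X, q.1 ∈ Icc (-(n : ℝ)) n ∧ b j = q.1 • i q.2 := by
    intro j
    rcases hb j (mem_univ _) with h | ⟨q, hq, h⟩
    · exact ⟨(0, Classical.arbitrary X), by simp, by simp [h]⟩
    · exact ⟨q, hq.1, h.symm⟩
  choose q hq1 hq2 using this
  exact ⟨fun j => (q j).1, fun j => (q j).2, hq1, by simp only [← hq2]⟩

theorem closed_of_coh {V : Type*} [TopologicalSpace V] {L : ℕ → Set V}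
    (h : ∀ U, CohOpen L U → IsOpen U) {C : Set V} (hC : ∀ n, IsClosed (C ∩ L n)) :
    IsClosed C := by
  rw [← isOpen_compl_iff]
  apply h
  intro n x hx hxC
  have h1 : (C ∩ L n)ᶜ ∈ 𝓝 x := (hC n).isOpen_compl.mem_nhds (fun h => hxC h.1)
  filter_upwards [mem_nhdsWithin_of_mem_nhds h1, self_mem_nhdsWithin] with y hy hyL hyC
  exact hy ⟨hyC, hyL⟩

theorem k_of_exhaustion [MetricSpace X] {i : X → V} (hi : IsFreeTVS i) (K : CompactExhaustion X)
    (n : ℕ) : CompactlyCoherentSpace (sp i n) := by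
  rcases isEmpty_or_nonempty X with hX | hX
  · have : Subsingleton V := by
      have := hi.span_eq_top
      rw [range_eq_empty, Submodule.span_empty] at this
      exact (Submodule.subsingleton_iff ℝ).mp (subsingleton_of_bot_eq_top this)
    infer_instance
  set L : ℕ → Set V := fun n : ℕ => many i n (K n) n with hL
  have hLc : ∀ n, IsCompact (L n) := fun n => isCompact_many hi.1 _ (K.isCompact n) n
  have hcoh : ∀ U, CohOpen L U → IsOpen U := fun U hU => coherent hi K hU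
  have hcl : IsClosed (sp i n) := by
    apply closed_of_coh hcoh
    intro m
    have : sp i n ∩ L m = many i n (K m) n ∩ L m := by
      apply Subset.antisymm
      · exact fun v hv => ⟨sp_inter_subset hi _ _ _ _ hv, hv.2⟩
      · exact fun v hv => ⟨many_subset_sp i _ n hv.1, hv.2⟩
    rw [this]
    exact (isCompact_many hi.1 _ (K.isCompact m) n).isClosed.inter (hLc m).isClosed
  apply CompactlyCoherentSpace.of_isClosed
  intro A hA
  have hemb : IsClosedEmbedding ((↑) : sp i n → V) := hcl.isClosedEmbedding_subtypeVal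
  rw [hemb.isClosed_iff_image_isClosed]
  apply closed_of_coh hcoh
  intro m
  have h1 : IsCompact (((↑) : sp i n → V) ⁻¹' L m) := hemb.isCompact_preimage (hLc m)
  have h2 := hA _ h1
  rw [h1.isClosed.isClosedEmbedding_subtypeVal.isClosed_iff_image_isClosed,
    Subtype.image_preimage_coe, hemb.isClosed_iff_image_isClosed, inter_comm,
    image_inter_preimage] at h2
  exact h2

theorem main {X : Type u} [TopologicalSpace X] [TopologicalSpace.MetrizableSpace X] {i : X → V}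
    (hi : IsFreeTVS i) {m : ℕ} (hm : 2 ≤ m) (hk : CompactlyCoherentSpace (sp i m)) (n : ℕ) :
    CompactlyCoherentSpace (sp i n) := by
  let : MetricSpace X := TopologicalSpace.metrizableSpaceMetric X
  have h1 := locallyCompact_of_k hi hm hk
  have h2 := secondCountable_of_k hi hm hk
  exact k_of_exhaustion hi (CompactExhaustion.choice X) n

end Pool.Agent.Lib.MP_7b06ad_gt
end
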